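import Mathlib

namespace Pool.Agent.Results.MP_d6bd81_co.Counter

open Module

abbrev E (m : ℕ) := EuclideanSpace ℝ (Fin m)

/-- `I p l`: point `p` is on line `l`; a balanced configuration `(n_k)` -/
def IsBalanced {n : ℕ} (k : ℕ) (I : Fin n → Fin n → Prop) : Prop :=
  2 ≤ k ∧ (∀ p, {l | I p l}.ncard = k) ∧ (∀ l, {p | I p l}.ncard = k) ∧
    ∀ p q l l', p ≠ q → I p l → I q l → I p l' → I q l' → l = l'

/-- the dual configuration -/
def dual {n : ℕ} (I : Fin n → Fin n → Prop) : Fin n → Fin n → Prop := fun l p => I p l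

/-- geometric realization in `ℝ^m` -/
def IsReal {n m : ℕ} (I : Fin n → Fin n → Prop) (x : Fin n → E m)
    (ℓ : Fin n → AffineSubspace ℝ (E m)) : Prop :=
  Function.Injective x ∧ Function.Injective ℓ ∧
    (∀ l, (ℓ l : Set (E m)).Nonempty ∧ finrank ℝ (ℓ l).direction = 1) ∧
    ∀ p l, x p ∈ ℓ l ↔ I p l

/-- dimensions of the affine hulls of all realizations -/
def dims {n : ℕ} (I : Fin n → Fin n → Prop) : Set ℕ :=
  {d | ∃ (m : ℕ) (x : Fin n → E m) (ℓ : Fin n → AffineSubspace ℝ (E m)),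
    IsReal I x ℓ ∧ finrank ℝ (affineSpan ℝ (Set.range x)).direction = d}

/-- dimension of a configuration -/
noncomputable def dim {n : ℕ} (I : Fin n → Fin n → Prop) : ℕ := sSup (dims I)

def cz (p a b : Fin 3 → ℤ) : Prop :=
  (p 1 - a 1) * (b 2 - a 2) = (p 2 - a 2) * (b 1 - a 1) ∧
  (p 2 - a 2) * (b 0 - a 0) = (p 0 - a 0) * (b 2 - a 2) ∧
  (p 0 - a 0) * (b 1 - a 1) = (p 1 - a 1) * (b 0 - a 0)

instance (p a b : Fin 3 → ℤ) : Decidable (cz p a b) := by unfold cz; infer_instance

noncomputable def toE (v : Fin 3 → ℤ) : E 3 := WithLp.toLp 2 (fun i => (v i : ℝ))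

theorem toE_apply (v : Fin 3 → ℤ) (i : Fin 3) : toE v i = v i := rfl

theorem toE_inj : Function.Injective toE := by
  intro v w h
  funext i
  have : toE v i = toE w i := by rw [h]
  rw [toE_apply, toE_apply] at this
  exact Int.cast_injective (α := ℝ) this

theorem mem_line (p a b : Fin 3 → ℤ) (hab : a ≠ b) :
    toE p ∈ line[ℝ, toE a, toE b] ↔ cz p a b := by
  rw [mem_affineSpan_pair_iff_exists_lineMap_eq]
  constructor
  · rintro ⟨r, hr⟩
    have h : ∀ i, (p i : ℝ) - a i = r * (b i - a i) := by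
      intro i
      have : toE p i = (AffineMap.lineMap (toE a) (toE b) r : E 3) i := by rw [hr]
      simp only [AffineMap.lineMap_apply, vsub_eq_sub, vadd_eq_add, PiLp.add_apply,
        PiLp.smul_apply, PiLp.sub_apply, toE_apply, smul_eq_mul] at this
      linarith
    refine ⟨?_, ?_, ?_⟩ <;>
    · have : ∀ i j, ((p i : ℝ) - a i) * (b j - a j) = (p j - a j) * (b i - a i) := by
        intro i j; rw [h i, h j]; ring
      exact_mod_cast this _ _
  · rintro ⟨h1, h2, h3⟩
    have h : ∀ i j, ((p i : ℝ) - a i) * (b j - a j) = (p j - a j) * (b i - a i) := by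
      intro i j
      have : (p i - a i) * (b j - a j) = (p j - a j) * (b i - a i) := by
        fin_cases i <;> fin_cases j <;> simp only [Fin.zero_eta, Fin.mk_one, Fin.reduceFinMk] <;>
          first | rfl | exact h1 | exact h2 | exact h3 | exact h1.symm | exact h2.symm |
            exact h3.symm
      exact_mod_cast this
    obtain ⟨j, hj⟩ := Function.ne_iff.1 hab
    have hj' : (b j : ℝ) - a j ≠ 0 := by
      rw [sub_ne_zero]; exact_mod_cast hj.symm
    refine ⟨((p j : ℝ) - a j) / (b j - a j), ?_⟩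
    ext i
    simp only [AffineMap.lineMap_apply, vsub_eq_sub, vadd_eq_add, PiLp.add_apply,
      PiLp.smul_apply, PiLp.sub_apply, toE_apply, smul_eq_mul]
    field_simp
    linear_combination -h i j

theorem build {n : ℕ} (I : Fin n → Fin n → Prop) (x : Fin n → Fin 3 → ℤ) (a b : Fin n → Fin n)
    (hinj : Function.Injective x) (hab : ∀ l, a l ≠ b l)
    (hinc : ∀ p l, cz (x p) (x (a l)) (x (b l)) ↔ I p l)
    (hsep : ∀ l l', (∀ p, I p l ↔ I p l') → l = l') :
    IsReal I (fun p => toE (x p)) (fun l => line[ℝ, toE (x (a l)), toE (x (b l))]) := by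
  have hm : ∀ p l, toE (x p) ∈ line[ℝ, toE (x (a l)), toE (x (b l))] ↔ I p l := fun p l => by
    rw [mem_line _ _ _ (hinj.ne (hab l)), hinc]
  refine ⟨toE_inj.comp hinj, fun l l' h => hsep l l' fun p => ?_, fun l => ⟨⟨_,
    left_mem_affineSpan_pair ℝ _ _⟩, ?_⟩, hm⟩
  · rw [← hm, ← hm]
    simp only at h
    rw [h]
  · rw [direction_affineSpan, vectorSpan_pair]
    exact finrank_span_singleton (vsub_ne_zero.2 ((toE_inj.comp hinj).ne (hab l)))

def ln : Fin 15 → Fin 15 × Fin 15 × Fin 15 :=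
  ![(0, 2, 3), (0, 4, 5), (0, 6, 7), (1, 4, 6), (1, 2, 7), (1, 3, 5), (2, 4, 8), (3, 6, 9),
    (5, 7, 10), (11, 12, 8), (13, 14, 8), (11, 13, 9), (12, 14, 9), (11, 14, 10), (12, 13, 10)]

def J (p l : Fin 15) : Prop := p = (ln l).1 ∨ p = (ln l).2.1 ∨ p = (ln l).2.2

instance (p l : Fin 15) : Decidable (J p l) := by unfold J; infer_instance
instance (p l : Fin 15) : Decidable (dual J p l) := by unfold dual; infer_instance

def x1 : Fin 15 → Fin 3 → ℤ :=
  ![![-12, 0, 0], ![0, 0, 0], ![0, 3, 0], ![12, 6, 0], ![-6, 6, 0], ![-24, -12, 0],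
    ![12, -12, 0], ![0, -6, 0], ![-2, 4, 0], ![12, 12, 0], ![8, -4, 0], ![-14, 4, 0],
    ![2, 4, 0], ![-1, 8, 0], ![-3, 0, 0]]

def x2 : Fin 15 → Fin 3 → ℤ :=
  ![![0, 36, 72], ![0, -9, 27], ![0, 18, 54], ![-36, 0, 72], ![9, 0, 27], ![36, 0, 0],
    ![12, -12, 12], ![12, 24, 48], ![12, -6, 18], ![4, -28, -4], ![28, 20, 44],
    ![-32, -64, -40], ![16, 32, 56], ![40, 8, 32], ![8, -8, 16]]

def da : Fin 15 → Fin 15 := ![0, 3, 0, 0, 1, 1, 2, 2, 6, 7, 8, 9, 9, 10, 10]
def db : Fin 15 → Fin 15 := ![1, 4, 4, 5, 3, 5, 3, 4, 9, 11, 13, 11, 12, 11, 12]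

theorem real1 : IsReal J (fun p => toE (x1 p))
    (fun l => line[ℝ, toE (x1 (ln l).1), toE (x1 (ln l).2.1)]) :=
  build J x1 (fun l => (ln l).1) (fun l => (ln l).2.1) (by decide +kernel) (by decide +kernel)
    (by decide +kernel) (by decide +kernel)

theorem real2 : IsReal (dual J) (fun p => toE (x2 p))
    (fun l => line[ℝ, toE (x2 (da l)), toE (x2 (db l))]) :=
  build (dual J) x2 da db (by decide +kernel) (by decide +kernel)
    (by decide +kernel) (by decide +kernel)

theorem col {n m : ℕ} {I : Fin n → Fin n → Prop} {x : Fin n → E m}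
    {ℓ : Fin n → AffineSubspace ℝ (E m)} (h : IsReal I x ℓ) (p q r l : Fin n) (hpq : p ≠ q)
    (hp : I p l) (hq : I q l) (hr : I r l) : ∃ t : ℝ, x r = x p + t • (x q - x p) := by
  obtain ⟨h1, -, h3, h4⟩ := h
  have m1 := AffineSubspace.vsub_mem_direction ((h4 q l).2 hq) ((h4 p l).2 hp)
  have m2 := AffineSubspace.vsub_mem_direction ((h4 r l).2 hr) ((h4 p l).2 hp)
  have nz : (⟨_, m1⟩ : (ℓ l).direction) ≠ 0 := by
    intro h0
    have := congrArg Subtype.val h0
    exact hpq (h1 (vsub_eq_zero_iff_eq.1 this)).symm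
  obtain ⟨c, hc⟩ := (finrank_eq_one_iff_of_nonzero' _ nz).1 (h3 l).2 ⟨_, m2⟩
  have := congrArg Subtype.val hc
  simp only [SetLike.mk_smul_mk, vsub_eq_sub] at this
  exact ⟨c, by rw [this]; abel⟩

theorem comb_mem {m : ℕ} {W : AffineSubspace ℝ (E m)} {a b : E m} (t : ℝ) (ha : a ∈ W)
    (hb : b ∈ W) : a + t • (b - a) ∈ W := by
  have := AffineMap.lineMap_mem t ha hb
  rwa [AffineMap.lineMap_apply, vsub_eq_sub, vadd_eq_add, add_comm] at this

theorem planar {d : ℕ} (hd : d ∈ dims J) : d ≤ 2 := by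
  obtain ⟨m, x, ℓ, h, rfl⟩ := hd
  set W := affineSpan ℝ (Set.range ![x 1, x 2, x 3]) with hW
  have pr : ∀ p q r l, p ≠ q → J p l → J q l → J r l → x p ∈ W → x q ∈ W → x r ∈ W := by
    intro p q r l h0 h1 h2 h3 hp hq
    obtain ⟨t, ht⟩ := col h p q r l h0 h1 h2 h3
    rw [ht]; exact comb_mem t hp hq
  have m1 : x 1 ∈ W := subset_affineSpan ℝ _ ⟨0, rfl⟩
  have m2 : x 2 ∈ W := subset_affineSpan ℝ _ ⟨1, rfl⟩
  have m3 : x 3 ∈ W := subset_affineSpan ℝ _ ⟨2, rfl⟩
  have m7 := pr 1 2 7 4 (by decide) (by decide) (by decide) (by decide) m1 m2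
  have m5 := pr 1 3 5 5 (by decide) (by decide) (by decide) (by decide) m1 m3
  have m0 := pr 2 3 0 0 (by decide) (by decide) (by decide) (by decide) m2 m3
  have m4 := pr 0 5 4 1 (by decide) (by decide) (by decide) (by decide) m0 m5
  have m6 := pr 0 7 6 2 (by decide) (by decide) (by decide) (by decide) m0 m7
  have m8 := pr 2 4 8 6 (by decide) (by decide) (by decide) (by decide) m2 m4
  have m9 := pr 3 6 9 7 (by decide) (by decide) (by decide) (by decide) m3 m6
  have m10 := pr 5 7 10 8 (by decide) (by decide) (by decide) (by decide) m5 m7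
  obtain ⟨s, hs⟩ := col h 11 12 8 9 (by decide) (by decide) (by decide) (by decide)
  obtain ⟨t, ht⟩ := col h 11 13 9 11 (by decide) (by decide) (by decide) (by decide)
  obtain ⟨u, hu⟩ := col h 12 13 10 14 (by decide) (by decide) (by decide) (by decide)
  obtain ⟨r, hr⟩ := col h 13 8 14 10 (by decide) (by decide) (by decide) (by decide)
  obtain ⟨r', hr'⟩ := col h 12 9 14 12 (by decide) (by decide) (by decide) (by decide)
  obtain ⟨r'', hr''⟩ := col h 11 10 14 13 (by decide) (by decide) (by decide) (by decide)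
  have hne : ∀ p q, p ≠ q → x p ≠ x q := fun p q h0 => h.1.ne h0
  obtain ⟨v, hv⟩ : ∃ v, x 12 = x 11 + v := ⟨x 12 - x 11, by abel⟩
  obtain ⟨w, hw⟩ : ∃ w, x 13 = x 11 + w := ⟨x 13 - x 11, by abel⟩
  have li : ∀ α β : ℝ, α • v + β • w = 0 → α = 0 ∧ β = 0 := by
    intro α β h0
    have hβ : β = 0 := by
      by_contra hβ
      have e : x 13 = x 11 + (-α / β) • (x 12 - x 11) := by
        have : w = (-α / β) • v := by
          have : β • w = β • ((-α / β) • v) := by
            rw [smul_smul, mul_div_cancel₀ _ hβ, neg_smul]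
            exact eq_neg_of_add_eq_zero_right h0
          exact smul_right_injective _ hβ this
        rw [hw, hv, this, add_sub_cancel_left]
      have := comb_mem (-α / β) ((h.2.2.2 11 9).2 (by decide)) ((h.2.2.2 12 9).2 (by decide))
      rw [← e, h.2.2.2] at this
      exact absurd this (by decide)
    refine ⟨?_, hβ⟩
    rw [hβ, zero_smul, add_zero, smul_eq_zero] at h0
    refine h0.resolve_right fun h1 => hne 12 11 (by decide) ?_
    rw [hv, h1, add_zero]
  have q1 := li (r * s - (1 - r')) ((1 - r) - r' * t) (by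
    have := hr.symm.trans hr'
    rw [hs, ht, hv, hw] at this
    linear_combination (norm := module) this)
  have q2 := li (r * s - r'' * (1 - u)) ((1 - r) - r'' * u) (by
    have := hr.symm.trans hr''
    rw [hs, hu, hv, hw] at this
    linear_combination (norm := module) this)
  have n1 : r ≠ 0 := fun h0 => hne 14 13 (by decide) (by rw [hr, h0]; simp)
  have n2 : r ≠ 1 := fun h0 => hne 14 8 (by decide) (by rw [hr, h0]; simp)
  have n3 : s ≠ 0 := fun h0 => hne 8 11 (by decide) (by rw [hs, h0]; simp)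
  have n4 : r'' ≠ 1 := fun h0 => hne 14 10 (by decide) (by rw [hr'', h0]; simp)
  have hΔ : -s * u - t * (1 - u - s) ≠ 0 := by
    intro h0
    have e1 : r' = 1 - r * s := by linarith [q1.1]
    have e2 : r'' = r * s + (1 - r) := by linarith [q2.1, q2.2]
    have e3 : r' * t = 1 - r := by linarith [q1.2]
    have e4 : r'' * u = 1 - r := by linarith [q2.2]
    have e5 : (-s * u - t * (1 - u - s)) * (r * r' * r'') =
        -(r * s) * (r'' * u) * r' - (r' * t) * r * r'' + (r' * t) * (r'' * u) * r +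
          (r' * t) * (r * s) * r'' := by ring
    rw [h0, e3, e4] at e5
    have e6 : r * s * (1 - r) * (1 - r'') = 0 := by
      rw [e1, e2] at e5
      rw [e2]
      linear_combination (1 / 2 : ℝ) * e5
    simp only [mul_eq_zero, sub_eq_zero] at e6
    rcases e6 with ((h1 | h1) | h1) | h1
    exacts [n1 h1, n3 h1, n2 h1.symm, n4 h1.symm]
  have d1 := AffineSubspace.vsub_mem_direction m9 m8
  have d2 := AffineSubspace.vsub_mem_direction m10 m8
  have dv : v ∈ W.direction := by
    rw [← Submodule.smul_mem_iff _ hΔ]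
    have := W.direction.sub_mem (W.direction.smul_mem u d1) (W.direction.smul_mem t d2)
    convert this using 1
    rw [vsub_eq_sub, vsub_eq_sub, hs, ht, hu, hv, hw]
    module
  have dw : w ∈ W.direction := by
    rw [← Submodule.smul_mem_iff _ (neg_ne_zero.2 hΔ)]
    have := W.direction.add_mem (W.direction.smul_mem (1 - u - s) d1) (W.direction.smul_mem s d2)
    convert this using 1
    rw [vsub_eq_sub, vsub_eq_sub, hs, ht, hu, hv, hw]
    module
  have m11 : x 11 ∈ W := by
    have := AffineSubspace.vadd_mem_of_mem_direction (W.direction.smul_mem (-s) dv) m8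
    convert this using 1
    rw [vadd_eq_add, hs, hv]
    module
  have m12 : x 12 ∈ W := by
    have := AffineSubspace.vadd_mem_of_mem_direction dv m11
    rwa [vadd_eq_add, add_comm, ← hv] at this
  have m13 : x 13 ∈ W := by
    have := AffineSubspace.vadd_mem_of_mem_direction dw m11
    rwa [vadd_eq_add, add_comm, ← hw] at this
  have m14 := pr 13 8 14 10 (by decide) (by decide) (by decide) (by decide) m13 m8
  have hle : affineSpan ℝ (Set.range x) ≤ W := by
    rw [affineSpan_le]
    rintro _ ⟨p, rfl⟩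
    fin_cases p
    exacts [m0, m1, m2, m3, m4, m5, m6, m7, m8, m9, m10, m11, m12, m13, m14]
  refine le_trans (Submodule.finrank_mono (AffineSubspace.direction_le hle)) ?_
  rw [hW, direction_affineSpan]
  exact finrank_vectorSpan_range_le ℝ _ (by simp)

theorem three : 3 ∈ dims (dual J) := by
  refine ⟨3, _, _, real2, ?_⟩
  have : (affineSpan ℝ (Set.range fun p => toE (x2 p))).direction = ⊤ := by
    rw [Submodule.eq_top_iff']
    intro w
    have hm : ∀ p q, toE (x2 p) - toE (x2 q) ∈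
        (affineSpan ℝ (Set.range fun p => toE (x2 p))).direction := fun p q =>
      AffineSubspace.vsub_mem_direction (subset_affineSpan ℝ _ ⟨p, rfl⟩)
        (subset_affineSpan ℝ _ ⟨q, rfl⟩)
    have := Submodule.add_mem _ (Submodule.add_mem _
      (Submodule.smul_mem _ ((w 1 + 28 * (-(w 0 - w 1 + w 2) / 8)) / 45) (hm 0 1))
      (Submodule.smul_mem _ ((w 0 + 32 * (-(w 0 - w 1 + w 2) / 8)) / 27) (hm 5 4)))
      (Submodule.smul_mem _ (-(w 0 - w 1 + w 2) / 8) (hm 9 5))
    convert this using 1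
    ext i
    fin_cases i <;> simp [toE_apply, x2] <;> ring
  rw [this]
  simp

theorem ncard_eq (P : Fin 15 → Prop) [DecidablePred P] :
    {l | P l}.ncard = (Finset.univ.filter P).card := by
  rw [← Set.ncard_coe_finset]; simp

theorem result : ∃ (n k : ℕ) (I : Fin n → Fin n → Prop), IsBalanced k I ∧
    (dims I).Nonempty ∧ (dims (dual I)).Nonempty ∧ dim I ≠ dim (dual I) := by
  refine ⟨15, 3, J, ⟨by norm_num, fun p => ?_, fun l => ?_, by decide +kernel⟩,
    ⟨_, 3, _, _, real1, rfl⟩, ⟨3, three⟩, ?_⟩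
  · rw [ncard_eq]; revert p; decide +kernel
  · rw [ncard_eq]; revert l; decide +kernel
  · have h1 : dim J ≤ 2 := csSup_le' fun d hd => planar hd
    have h2 : 3 ≤ dim (dual J) := by
      refine le_csSup ⟨14, ?_⟩ three
      rintro _ ⟨m, x, ℓ, -, rfl⟩
      rw [direction_affineSpan]
      exact finrank_vectorSpan_range_le ℝ _ (by simp)
    omega

end Pool.Agent.Results.MP_d6bd81_co.Counter
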